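import Pool.Agent.H55.SA.Final
import Pool.Agent.H64.SA.Exist

/-!
The simple `k`-Anosov domain is not a maximal domain of discontinuity, for every closed hyperbolic
surface, every `d ≥ 4` and every `k`.
-/

open Matrix MatrixGroups

namespace Pool.Agent.Results.MP_c30652_gt.NotMaximal

open Pool.Agent.SimpleAnosov

theorem result :
    (∃ Γ : Subgroup SL(2, ℝ), IsSurfaceGroup Γ) ∧
    ∀ Γ : Subgroup SL(2, ℝ), IsSurfaceGroup Γ → ∀ d : ℕ, 4 ≤ d →
      ∃ U : Set (CharVar Γ d), IsDomainOfDiscontinuity U ∧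
        ∀ k : ℕ, 1 ≤ k → k ≤ d - 1 →
          simpleAnosovDomain Γ d k ⊆ U ∧ ∃ χ ∈ U, χ ∉ simpleAnosovDomain Γ d k := by
  refine ⟨H64.exists_surfaceGroup, fun Γ hΓ d hd => ?_⟩
  obtain ⟨U, hU, hk⟩ := exists_larger_domain Γ hΓ d hd
  exact ⟨U, hU, fun k h1 h2 => ⟨(hk k h1 h2).1, Set.exists_of_ssubset (hk k h1 h2)⟩⟩

end Pool.Agent.Results.MP_c30652_gt.NotMaximal
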